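import Pool.Agent.T2h42.GE.Stm

/-!
The window lemma: levels on which the classes hardly shrink.
-/

set_option autoImplicit false

namespace Pool.Agent.T2h42.GE

open Finset Pool.Agent.TH83.SQ Pool.Agent.T2h42.GD
open scoped Pointwise Classical

theorem g4_cls_anti {Q Q' : ℤ} (h : Q ∣ Q') (X : Finset ℤ) (t : ℤ) : cls Q' X t ⊆ cls Q X t := by
  intro x hx
  have hx' := Finset.mem_filter.1 hx
  exact Finset.mem_filter.2 ⟨hx'.1, h.trans hx'.2⟩

theorem g4_self_mem {Q : ℤ} {X : Finset ℤ} {t : ℤ} (ht : t ∈ X) : t ∈ cls Q X t :=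
  Finset.mem_filter.2 ⟨ht, by rw [sub_self]; exact dvd_zero Q⟩

/-- the level and the size of one class -/
theorem one_class (p : ℕ) (X : Finset ℤ) (J b n i : ℕ) (t : ℤ) (ht : t ∈ X)
    (h : X.card ≤ 2 ^ (i + 1) * (cls ((p : ℤ) ^ (J + n * b)) X t).card) (hn : i + 1 ≤ n) :
    ∃ r m : ℕ, r < n ∧ m ≤ i + 1 ∧ 2 ^ m * (cls ((p : ℤ) ^ (J + r * b)) X t).card ≤ X.card ∧
      X.card < 2 ^ (m + 1) * (cls ((p : ℤ) ^ (J + r * b)) X t).card ∧
      (cls ((p : ℤ) ^ (J + r * b)) X t).card ≤ 2 * (cls ((p : ℤ) ^ (J + (r + 1) * b)) X t).card := by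
  have hpos : ∀ r, 0 < (cls ((p : ℤ) ^ (J + r * b)) X t).card := fun r =>
    Finset.card_pos.2 ⟨t, g4_self_mem ht⟩
  have hle : ∀ r, (cls ((p : ℤ) ^ (J + r * b)) X t).card ≤ X.card := fun r =>
    Finset.card_le_card (Finset.filter_subset _ _)
  have hr : ∃ r < n, (cls ((p : ℤ) ^ (J + r * b)) X t).card ≤
      2 * (cls ((p : ℤ) ^ (J + (r + 1) * b)) X t).card := by
    by_contra hc
    push Not at hc
    have key : ∀ r, r ≤ n → 2 ^ r * (cls ((p : ℤ) ^ (J + r * b)) X t).card + r ≤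
        (cls ((p : ℤ) ^ (J + 0 * b)) X t).card := by
      intro r
      induction r with
      | zero => intro _; simp
      | succ r ih =>
        intro h1
        have h2 := ih (by omega)
        have h3 := hc r (by omega)
        have h4 : 2 ^ r * (2 * (cls ((p : ℤ) ^ (J + (r + 1) * b)) X t).card + 1) ≤
            2 ^ r * (cls ((p : ℤ) ^ (J + r * b)) X t).card := Nat.mul_le_mul_left _ h3
        have h5 : 1 ≤ 2 ^ r := Nat.one_le_two_pow
        rw [pow_succ]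
        nlinarith
    have h1 := key n le_rfl
    have h2 : 2 ^ (i + 1) * (cls ((p : ℤ) ^ (J + n * b)) X t).card ≤
        2 ^ n * (cls ((p : ℤ) ^ (J + n * b)) X t).card :=
      Nat.mul_le_mul_right _ (Nat.pow_le_pow_right (by norm_num) hn)
    have h3 := hle 0
    omega
  obtain ⟨r, hrn, hr⟩ := hr
  have hq : X.card / (cls ((p : ℤ) ^ (J + r * b)) X t).card ≠ 0 :=
    (Nat.div_pos (hle r) (hpos r)).ne'
  refine ⟨r, Nat.log 2 (X.card / (cls ((p : ℤ) ^ (J + r * b)) X t).card), hrn, ?_, ?_, ?_, hr⟩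
  · have h1 := Nat.pow_log_le_self 2 hq
    have h2 : 2 ^ Nat.log 2 (X.card / (cls ((p : ℤ) ^ (J + r * b)) X t).card) *
        (cls ((p : ℤ) ^ (J + r * b)) X t).card ≤ X.card := by
      rwa [Nat.le_div_iff_mul_le (hpos r)] at h1
    have h3 : (cls ((p : ℤ) ^ (J + n * b)) X t).card ≤ (cls ((p : ℤ) ^ (J + r * b)) X t).card := by
      apply Finset.card_le_card
      apply g4_cls_anti
      exact pow_dvd_pow _ (by nlinarith [Nat.mul_le_mul_right b hrn.le])
    have h4 : 2 ^ Nat.log 2 (X.card / (cls ((p : ℤ) ^ (J + r * b)) X t).card) ≤ 2 ^ (i + 1) := by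
      refine Nat.le_of_mul_le_mul_right (h2.trans (h.trans (Nat.mul_le_mul_left _ h3))) (hpos r)
    exact (Nat.pow_le_pow_iff_right (by norm_num)).1 h4
  · have h1 := Nat.pow_log_le_self 2 hq
    rwa [Nat.le_div_iff_mul_le (hpos r)] at h1
  · have h1 := Nat.lt_pow_succ_log_self (b := 2) (by norm_num)
      (X.card / (cls ((p : ℤ) ^ (J + r * b)) X t).card)
    rwa [Nat.div_lt_iff_lt_mul (hpos r)] at h1

theorem g4 : G4 := by
  intro p hp X T₀ J b n i hT₀ hne hsep hbig hn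
  have hX : X.Nonempty := hne.mono hT₀
  choose! r m hr hm h1 h2 h3 using fun t (ht : t ∈ T₀) =>
    one_class p X J b n i t (hT₀ ht) (hbig t ht) hn
  -- the pigeonhole principle
  obtain ⟨a, ha⟩ : ∃ a : ℕ × ℕ, T₀.card ≤ n * (i + 2) * (T₀.filter fun t => (r t, m t) = a).card := by
    by_contra hc
    push Not at hc
    have e1 : T₀.card = ∑ a ∈ Finset.range n ×ˢ Finset.range (i + 2),
        (T₀.filter fun t => (r t, m t) = a).card := by
      apply Finset.card_eq_sum_card_fiberwise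
      intro t ht
      have ht' : t ∈ T₀ := ht
      simp only [Finset.coe_product, Set.mem_prod, Finset.coe_range, Set.mem_Iio]
      exact ⟨hr t ht', by have := hm t ht'; omega⟩
    have hn0 : 0 < n := by omega
    have e2 : ∑ a ∈ Finset.range n ×ˢ Finset.range (i + 2),
        n * (i + 2) * (T₀.filter fun t => (r t, m t) = a).card <
        ∑ _a ∈ Finset.range n ×ˢ Finset.range (i + 2), T₀.card := by
      apply Finset.sum_lt_sum_of_nonempty
      · exact ⟨(0, 0), by simp; omega⟩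
      · intro a _
        exact hc a
    rw [← Finset.mul_sum, ← e1, Finset.sum_const, Finset.card_product, Finset.card_range,
      Finset.card_range, smul_eq_mul] at e2
    exact lt_irrefl _ e2
  obtain ⟨r₀, m₀⟩ := a
  set T₁ := T₀.filter fun t => (r t, m t) = (r₀, m₀) with hT₁
  have hT₁n : T₁.Nonempty := by
    rw [← Finset.card_pos]
    have := hne.card_pos
    by_contra hc
    have hc' : T₁.card = 0 := by omega
    rw [hc', mul_zero] at ha
    omega
  have hT₁s : T₁ ⊆ T₀ := Finset.filter_subset _ _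
  have hrm : ∀ t ∈ T₁, r t = r₀ ∧ m t = m₀ := fun t ht => by
    have := (Finset.mem_filter.1 ht).2
    exact ⟨congrArg Prod.fst this, congrArg Prod.snd this⟩
  obtain ⟨t₀, ht₀⟩ := hT₁n
  have hr₀ : r₀ < n := by rw [← (hrm t₀ ht₀).1]; exact hr t₀ (hT₁s ht₀)
  have hm₀ : m₀ ≤ i + 1 := by rw [← (hrm t₀ ht₀).2]; exact hm t₀ (hT₁s ht₀)
  set Q : ℤ := (p : ℤ) ^ (J + r₀ * b) with hQ
  have hQQ : Q ∣ (p : ℤ) ^ (J + n * b) := pow_dvd_pow _ (by nlinarith [Nat.mul_le_mul_right b hr₀.le])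
  -- the representatives
  obtain ⟨T, hTs, hTi, hTm⟩ := Finset.exists_subset_injOn_image_eq_of_surjOn (f := fun t : ℤ => t % Q)
    (T₁ : Set ℤ) (T₁.image fun t : ℤ => t % Q) (by
      rw [Finset.coe_image]
      exact Set.surjOn_image _ _)
  have hTs' : T ⊆ T₁ := by exact_mod_cast hTs
  have hTn : T.Nonempty := by
    have : (T.image fun t : ℤ => t % Q).Nonempty := by
      rw [hTm]
      exact ⟨_, Finset.mem_image_of_mem _ ht₀⟩
    exact Finset.image_nonempty.1 this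
  have hTsep : ∀ t ∈ T, ∀ t' ∈ T, Q ∣ t - t' → t = t' := by
    intro t ht t' ht' hd
    apply hTi ht ht'
    exact Int.ModEq.symm ((Int.modEq_iff_dvd).2 hd)
  have hcov : T₁ ⊆ T.biUnion fun t => cls Q T₁ t := by
    intro u hu
    have h4 : u % Q ∈ T.image fun t : ℤ => t % Q := by
      rw [hTm]
      exact Finset.mem_image_of_mem _ hu
    obtain ⟨t, ht, htu⟩ := Finset.mem_image.1 h4
    refine Finset.mem_biUnion.2 ⟨t, ht, Finset.mem_filter.2 ⟨hu, ?_⟩⟩
    exact (Int.modEq_iff_dvd).1 htu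
  have hone : ∀ t ∈ T, 2 ^ m₀ * (cls Q T₁ t).card ≤ 2 ^ (i + 1) := by
    intro t ht
    have ht1 := hTs' ht
    have hb1 : 2 ^ m₀ * (cls Q X t).card ≤ X.card := by
      have := h1 t (hT₁s ht1)
      rwa [(hrm t ht1).1, (hrm t ht1).2] at this
    have hb2 : ∑ u ∈ cls Q T₁ t, (cls ((p : ℤ) ^ (J + n * b)) (cls Q X t) u).card ≤ (cls Q X t).card := by
      apply sum_cls_le
      intro u hu u' hu' hd
      exact hsep u (hT₁s (Finset.filter_subset _ _ hu)) u' (hT₁s (Finset.filter_subset _ _ hu')) hd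
    have hb3 : ∀ u ∈ cls Q T₁ t, X.card ≤
        2 ^ (i + 1) * (cls ((p : ℤ) ^ (J + n * b)) (cls Q X t) u).card := by
      intro u hu
      obtain ⟨hu1, hu2⟩ := Finset.mem_filter.1 hu
      refine (hbig u (hT₁s hu1)).trans (Nat.mul_le_mul_left _ (Finset.card_le_card ?_))
      intro x hx
      obtain ⟨hx1, hx2⟩ := Finset.mem_filter.1 hx
      refine Finset.mem_filter.2 ⟨Finset.mem_filter.2 ⟨hx1, ?_⟩, hx2⟩
      have : x - t = (x - u) + (u - t) := by ring
      rw [this]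
      exact dvd_add (hQQ.trans hx2) hu2
    have hb4 : (cls Q T₁ t).card * X.card ≤ 2 ^ (i + 1) * (cls Q X t).card := by
      calc (cls Q T₁ t).card * X.card = ∑ _u ∈ cls Q T₁ t, X.card := by
            rw [Finset.sum_const, smul_eq_mul]
        _ ≤ ∑ u ∈ cls Q T₁ t, 2 ^ (i + 1) * (cls ((p : ℤ) ^ (J + n * b)) (cls Q X t) u).card :=
            Finset.sum_le_sum hb3
        _ = 2 ^ (i + 1) * ∑ u ∈ cls Q T₁ t, (cls ((p : ℤ) ^ (J + n * b)) (cls Q X t) u).card := by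
            rw [Finset.mul_sum]
        _ ≤ _ := Nat.mul_le_mul_left _ hb2
    refine Nat.le_of_mul_le_mul_right ?_ hX.card_pos
    calc 2 ^ m₀ * (cls Q T₁ t).card * X.card = 2 ^ m₀ * ((cls Q T₁ t).card * X.card) := by ring
      _ ≤ 2 ^ m₀ * (2 ^ (i + 1) * (cls Q X t).card) := Nat.mul_le_mul_left _ hb4
      _ = 2 ^ (i + 1) * (2 ^ m₀ * (cls Q X t).card) := by ring
      _ ≤ 2 ^ (i + 1) * X.card := Nat.mul_le_mul_left _ hb1
  have hsum : 2 ^ m₀ * T₁.card ≤ 2 ^ (i + 1) * T.card := by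
    calc 2 ^ m₀ * T₁.card ≤ 2 ^ m₀ * ∑ t ∈ T, (cls Q T₁ t).card :=
          Nat.mul_le_mul_left _ ((Finset.card_le_card hcov).trans Finset.card_biUnion_le)
      _ = ∑ t ∈ T, 2 ^ m₀ * (cls Q T₁ t).card := by rw [Finset.mul_sum]
      _ ≤ ∑ _t ∈ T, 2 ^ (i + 1) := Finset.sum_le_sum hone
      _ = 2 ^ (i + 1) * T.card := by rw [Finset.sum_const, smul_eq_mul, mul_comm]
  refine ⟨r₀, m₀, hr₀, hm₀, T, hTs'.trans hT₁s, hTn, hTsep, ?_, ?_⟩
  · intro t ht
    have ht1 := hTs' ht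
    have a1 := h1 t (hT₁s ht1)
    have a2 := h2 t (hT₁s ht1)
    have a3 := h3 t (hT₁s ht1)
    rw [(hrm t ht1).1] at a1 a2 a3
    rw [(hrm t ht1).2] at a1 a2
    exact ⟨a1, a2, a3⟩
  · calc 2 ^ m₀ * T₀.card ≤ 2 ^ m₀ * (n * (i + 2) * T₁.card) := Nat.mul_le_mul_left _ ha
      _ = n * (i + 2) * (2 ^ m₀ * T₁.card) := by ring
      _ ≤ n * (i + 2) * (2 ^ (i + 1) * T.card) := Nat.mul_le_mul_left _ hsum
      _ = n * (i + 2) * 2 ^ (i + 1) * T.card := by ring

end Pool.Agent.T2h42.GE
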