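import Pool.Agent.T2h42.GE.Stm

/-!
The choice of the constants.
-/

set_option autoImplicit false

namespace Pool.Agent.T2h42.GE

open Finset Pool.Agent.TH83.SQ Pool.Agent.T2h42.GD
open scoped Pointwise Classical

theorem g5 : G5 := by
  intro δ R hδ hR
  have hL : 0 < Real.log 2 := Real.log_pos (by norm_num)
  set L := Real.log 2 with hLdef
  have hδL : 0 < δ * L := by positivity
  obtain ⟨D, hD, hpsi⟩ := psi_le (δ * L / 4) (by positivity)
  -- `c₁`
  obtain ⟨c1, hc1⟩ := exists_nat_ge (max ((D + L) / (3 / 4 * (δ * L))) (R / L))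
  have hc1a : D + L ≤ 3 / 4 * (δ * L) * c1 := by
    have := (le_max_left _ _).trans hc1
    rw [div_le_iff₀ (by positivity)] at this
    linarith
  have hc1b : R ≤ c1 * L := by
    have := (le_max_right _ _).trans hc1
    rwa [div_le_iff₀ hL] at this
  -- `c₂`
  obtain ⟨c2, hc2⟩ := exists_nat_ge (max ((D + (c1 + 2) * L) / (3 / 4 * (δ * L))) (R / L))
  have hc2a : D + (c1 + 2) * L ≤ 3 / 4 * (δ * L) * c2 := by
    have := (le_max_left _ _).trans hc2
    rw [div_le_iff₀ (by positivity)] at this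
    linarith
  have hc2b : R ≤ c2 * L := by
    have := (le_max_right _ _).trans hc2
    rwa [div_le_iff₀ hL] at this
  -- `a`
  set C : ℝ := 4 * L + 4 * Real.log (c2 + 1) + D + δ * L / 4 - 4 * Real.log (δ * L / 16) with hC
  obtain ⟨a, ha⟩ := exists_nat_ge (max (C / (δ * L / 4)) (R / L))
  have haa : C ≤ δ * L / 4 * a := by
    have := (le_max_left _ _).trans ha
    rw [div_le_iff₀ (by positivity)] at this
    linarith
  have hab : R ≤ a * L := by
    have := (le_max_right _ _).trans ha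
    rwa [div_le_iff₀ hL] at this
  have ha0 : (0 : ℝ) ≤ a := Nat.cast_nonneg a
  have hc10 : (0 : ℝ) ≤ c1 := Nat.cast_nonneg c1
  have hc20 : (0 : ℝ) ≤ c2 := Nat.cast_nonneg c2
  refine ⟨a, c1 * (a + 1), c2 * (a + 1), c2 * (a + 1) + 1, ?_, ?_, by omega, by omega, hab, ?_⟩
  · intro i hi
    have hi' : (c1 : ℝ) * (a + 1) ≤ i := by exact_mod_cast hi
    have h1 := hpsi i
    constructor
    · have h2 : D + (a + 1) * L ≤ (D + L) * (a + 1) := by nlinarith
      have h3 : (D + L) * (a + 1) ≤ 3 / 4 * (δ * L) * c1 * (a + 1) :=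
        mul_le_mul_of_nonneg_right hc1a (by positivity)
      have h4 : 3 / 4 * (δ * L) * (c1 * (a + 1)) ≤ 3 / 4 * (δ * L) * i :=
        mul_le_mul_of_nonneg_left hi' (by positivity)
      linarith
    · have h2 : (c1 : ℝ) ≤ i := by nlinarith
      exact hc1b.trans (mul_le_mul_of_nonneg_right h2 hL.le)
  · intro i hi
    have hi' : (c2 : ℝ) * (a + 1) ≤ i := by exact_mod_cast hi
    have h1 := hpsi i
    push_cast
    constructor
    · have h2 : D + ((c1 : ℝ) * (a + 1) + 2) * L ≤ (D + (c1 + 2) * L) * (a + 1) := by nlinarith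
      have h3 : (D + (c1 + 2) * L) * (a + 1) ≤ 3 / 4 * (δ * L) * c2 * (a + 1) :=
        mul_le_mul_of_nonneg_right hc2a (by positivity)
      have h4 : 3 / 4 * (δ * L) * (c2 * (a + 1)) ≤ 3 / 4 * (δ * L) * i :=
        mul_le_mul_of_nonneg_left hi' (by positivity)
      linarith
    · have h2 : (c2 : ℝ) ≤ i := by nlinarith
      exact hc2b.trans (mul_le_mul_of_nonneg_right h2 hL.le)
  · intro i m iB hi hm
    have hm' : (a : ℝ) ≤ m := by exact_mod_cast hm
    have h1 := hpsi iB
    have hiB : (0 : ℝ) ≤ iB := Nat.cast_nonneg iB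
    set N : ℝ := ((c2 + 1) * (a + 1) : ℝ) with hN
    have hN0 : 0 < N := by positivity
    have hi1 : (i : ℝ) + 1 ≤ c2 * (a + 1) := by exact_mod_cast hi
    have hi0 : (0 : ℝ) ≤ i := Nat.cast_nonneg i
    have hn1 : (((c2 * (a + 1) + 1 : ℕ) : ℝ)) ≤ N := by
      push_cast
      rw [hN]
      nlinarith
    have hn2 : (i : ℝ) + 1 ≤ N := by rw [hN]; nlinarith
    have hn3 : (i : ℝ) + 2 ≤ N := by rw [hN]; nlinarith
    have h2 : Real.log (2 * (((c2 * (a + 1) + 1 : ℕ) : ℝ) * (i + 1) * (i + 2) ^ 2)) ≤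
        Real.log (2 * (N * N * N ^ 2)) := by
      apply Real.log_le_log (by positivity)
      gcongr
    have h3 : Real.log (2 * (N * N * N ^ 2)) = L + 4 * Real.log (c2 + 1) + 4 * Real.log (a + 1) := by
      rw [show N * N * N ^ 2 = N ^ 4 by ring, Real.log_mul (by norm_num) (by positivity), Real.log_pow, hN,
        Real.log_mul (by positivity) (by positivity)]
      push_cast
      ring
    have h4 : Real.log ((δ * L / 16) * (a + 1)) ≤ (δ * L / 16) * (a + 1) - 1 :=
      Real.log_le_sub_one_of_pos (by positivity)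
    rw [Real.log_mul (by positivity) (by positivity)] at h4
    have h5 : δ / 2 * ((m + iB) * L) = δ * L / 2 * m + δ * L / 2 * iB := by ring
    have h6 : δ * L / 2 * a ≤ δ * L / 2 * m := mul_le_mul_of_nonneg_left hm' (by positivity)
    have h7 : δ * L / 4 * iB ≤ δ * L / 2 * iB := mul_le_mul_of_nonneg_right (by linarith) hiB
    rw [h5]
    linarith

end Pool.Agent.T2h42.GE
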