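import Pool.Agent.T2h42.GE.Main
import Pool.Agent.T2h42.GE.G4
import Pool.Agent.T2h42.GE.G5
import Pool.Agent.T2h69.GE.G1
import Pool.Agent.T2h69.GE.G2
import Pool.Agent.T2h69.GE.G3
import Pool.Agent.T2h42.Tree.Fin

/-!
The theorem on dilates by products of coprime ratios, and its consequence for sets closed under
gcd and lcm.
-/

set_option autoImplicit false

namespace Pool.Agent.T2h42.GE

open Finset Pool.Agent.TH83.SQ
open Pool.Agent.T2h42.GD (dm)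
open scoped Pointwise Classical

theorem dilates (δ θ : ℝ) (hδ : 0 < δ) (hθ : 0 < θ) :
    ∃ C : ℝ, ∀ {ι : Type} (x y : ι → ℕ) (W : Finset ι), Tog x y W →
      ∀ X B : Finset ℤ, X.Nonempty → B.Nonempty →
      θ * (Real.log X.card + Real.log B.card) ≤ W.card →
      ∃ s ⊆ W, (1 - δ) * (Real.log X.card + Real.log B.card) - C ≤
        Real.log ((dil (dm x y W s) X + B).card : ℝ) :=
  dilates_of Pool.Agent.T2h69.GE.g1 Pool.Agent.T2h69.GE.g2 Pool.Agent.T2h69.GE.g3 g4 g5 δ θ hδ hθ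

theorem dh_all : Pool.Agent.T2h42.Tree.DH (fun _ => True) := by
  intro δ θ hδ hθ
  obtain ⟨C, hC⟩ := dilates δ θ hδ hθ
  refine ⟨C, fun W hW hcop X B hX hB hc => ?_⟩
  obtain ⟨s, hs, h⟩ := hC (fun w : ℕ => w) (fun _ => 1) W
    ⟨fun w hw => ⟨by have := (hW w hw).1; omega, one_pos⟩, fun w hw => (hW w hw).1.ne',
      fun w _ => Nat.coprime_one_right w,
      fun v hv w hw hvw => by rw [mul_one, mul_one]; exact hcop v hv w hw hvw⟩ X B hX hB hc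
  refine ⟨s, hs, ?_⟩
  have e : dm (fun w : ℕ => w) (fun _ => 1) W s = ((∏ w ∈ s, w : ℕ) : ℤ) := by
    unfold dm
    push_cast
    simp
  rw [e] at h
  exact h

theorem lattice_sums (k : ℕ) (hk : 1 ≤ k) (ε : ℝ) (hε : 0 < ε) :
    ∃ c : ℝ, 0 < c ∧ ∀ A : Finset ℕ, A.Nonempty → (∀ a ∈ A, 0 < a) →
      (∀ a ∈ A, ∀ b ∈ A, Nat.gcd a b ∈ A ∧ Nat.lcm a b ∈ A) →
      ∀ B : Finset ℤ, B.Nonempty →
        c * (A.card : ℝ) ^ ((k : ℝ) - ε) * (B.card : ℝ) ^ (1 - ε) ≤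
          ((((Fintype.piFinset fun _ : Fin k => A) ×ˢ B).image
            fun x => (∑ i, (x.1 i : ℤ)) + x.2).card : ℝ) := by
  obtain ⟨c, hc, h⟩ := Pool.Agent.T2h42.Tree.final dh_all k hk ε hε
  exact ⟨c, hc, fun A h1 h2 h3 B hB => h A ⟨h1, h2, h3⟩ (fun _ _ _ _ _ => trivial) B hB⟩

end Pool.Agent.T2h42.GE
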