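import Pool.Agent.T2h42.GE.Defs

/-!
The bound for the mean, and the branch with a multiplier divisible by a high power of `p`.
-/

set_option autoImplicit false

namespace Pool.Agent.T2h42.GE

open Finset Pool.Agent.TH83.SQ
open Pool.Agent.T2h42.GD (mu dm mu_avg Free)
open scoped Pointwise Classical

variable {ι : Type*}

theorem bd_small {δ R κ₀ j₀ : ℝ} (hδ : 0 < δ) (hR : 0 < R) (hκ : 0 ≤ κ₀) {j : ℕ}
    (hj : (j : ℝ) ≤ j₀) {S : ℝ} (hS : 0 ≤ S) : bd δ R κ₀ j₀ j S ≤ 0 := by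
  unfold bd
  have h2 : S ≤ (R / 2) * Real.exp (j₀ / 2) * Real.exp (2 / R * S - (j : ℝ) / 2) := by
    rw [mul_assoc, ← Real.exp_add]
    have h3 : 2 / R * S ≤ Real.exp (j₀ / 2 + (2 / R * S - (j : ℝ) / 2)) := by
      have h5 := Real.add_one_le_exp (j₀ / 2 + (2 / R * S - (j : ℝ) / 2))
      linarith
    calc S = (R / 2) * (2 / R * S) := by field_simp
      _ ≤ _ := mul_le_mul_of_nonneg_left h3 (by positivity)
  have h3 : 0 ≤ δ * S := by positivity
  nlinarith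

theorem bd_low {δ R κ₀ j₀ : ℝ} (hδ : 0 < δ) (hR : 0 < R) {j : ℕ}
    {S : ℝ} (hS0 : 0 ≤ S) (hS : S ≤ κ₀) : bd δ R κ₀ j₀ j S ≤ 0 := by
  unfold bd
  have h2 : 0 ≤ (R / 2) * Real.exp (j₀ / 2) * Real.exp (2 / R * S - (j : ℝ) / 2) := by
    positivity
  have h3 : 0 ≤ δ * S := by positivity
  nlinarith

/-- combination of the two halves -/
theorem bd_comb {δ R κ₀ j₀ : ℝ} (hR : 0 < R) {j : ℕ} {S S' g a b : ℝ}
    (hS' : S' ≤ S - R) (hg : (1 - δ) * S ≤ g + (1 - δ) * S')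
    (ha : bd δ R κ₀ j₀ j S ≤ a) (hb : g + bd δ R κ₀ j₀ j S' ≤ b) :
    bd δ R κ₀ j₀ (j + 1) S ≤ (a + b) / 2 := by
  unfold bd at *
  set A := (R / 2) * Real.exp (j₀ / 2) with hA
  have hA0 : 0 ≤ A := by positivity
  have h1 : Real.exp (2 / R * S' - (j : ℝ) / 2) ≤
      Real.exp (-2) * Real.exp (2 / R * S - (j : ℝ) / 2) := by
    rw [← Real.exp_add]
    apply Real.exp_le_exp.2
    have h2 : 2 / R * S' ≤ 2 / R * (S - R) := mul_le_mul_of_nonneg_left hS' (by positivity)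
    have h3 : 2 / R * (S - R) = 2 / R * S - 2 := by field_simp
    linarith
  have h2 : Real.exp (2 / R * S - ((j + 1 : ℕ) : ℝ) / 2) =
      Real.exp (-(1 / 2)) * Real.exp (2 / R * S - (j : ℝ) / 2) := by
    rw [← Real.exp_add]
    congr 1
    push_cast; ring
  rw [h2]
  have h3 := exp_num
  set E := Real.exp (2 / R * S - (j : ℝ) / 2) with hE
  have hE0 : 0 < E := Real.exp_pos _
  have h4 : A * Real.exp (2 / R * S' - (j : ℝ) / 2) ≤ A * (Real.exp (-2) * E) :=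
    mul_le_mul_of_nonneg_left h1 hA0
  have h5 : A * E * ((1 + Real.exp (-2)) / 2) ≤ A * E * Real.exp (-(1 / 2)) :=
    mul_le_mul_of_nonneg_left h3 (by positivity)
  nlinarith

theorem bd_mono {δ R κ₀ j₀ : ℝ} (hR : 0 < R) {j : ℕ} {S S' T : ℝ}
    (h1 : (1 - δ) * S' ≤ (1 - δ) * S) (h2 : S ≤ T) :
    (1 - δ) * S' - κ₀ - (R / 2) * Real.exp (j₀ / 2) *
      Real.exp (2 / R * T - (j : ℝ) / 2) ≤ bd δ R κ₀ j₀ j S := by
  unfold bd
  have h3 : Real.exp (2 / R * S - (j : ℝ) / 2) ≤ Real.exp (2 / R * T - (j : ℝ) / 2) := by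
    apply Real.exp_le_exp.2
    have := mul_le_mul_of_nonneg_left h2 (by positivity : 0 ≤ 2 / R)
    linarith
  have h4 := mul_le_mul_of_nonneg_left h3
    (by positivity : 0 ≤ (R / 2) * Real.exp (j₀ / 2))
  linarith

open Pool.Agent.TH959.SQ (log_split mem_dil dil_mono cls_subset)

/-- the branch with a multiplier divisible by `p ^ α` -/
theorem caseI (x y : ι → ℕ) (W : Finset ι) {p a α : ℕ} (ha : p ^ α ∣ a) (X B : Finset ℤ)
    (J L : ℕ) (hL : L ≤ J + α)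
    (x₀ : ℤ) (hx₀ : x₀ ∈ X) (U : Finset ℤ) (hU : U ⊆ B) (hUn : U.Nonempty)
    (hUi : ∀ t ∈ U, ∀ t' ∈ U, ((p : ℤ) ^ L) ∣ t - t' → t = t') :
    Real.log U.card + (∑ t ∈ U, mu x y W (dil a (cls ((p : ℤ) ^ J) X x₀))
      (cls ((p : ℤ) ^ L) B t)) / U.card ≤ mu x y W (dil a X) B := by
  refine mu_avg x y W U (fun _ => dil a (cls ((p : ℤ) ^ J) X x₀))
    (fun t => cls ((p : ℤ) ^ L) B t) (dil a X) B ?_
  intro s _
  refine log_split U hUn _ _ ?_ ?_ ?_
  · intro t _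
    exact Finset.add_subset_add (dil_mono (dil_mono (cls_subset _ _ _))) (cls_subset _ _ _)
  · intro t ht
    exact (dil_nonempty (dil_nonempty ⟨x₀, self_mem_cls _ hx₀⟩)).add ⟨t, self_mem_cls _ (hU ht)⟩
  · intro t ht t' ht' htt
    rw [Finset.disjoint_left]
    intro z hz hz'
    apply htt
    have key : ∀ t, z ∈ dil (dm x y W s) (dil a (cls ((p : ℤ) ^ J) X x₀)) +
        cls ((p : ℤ) ^ L) B t →
        ((p : ℤ) ^ L) ∣ z - (dm x y W s * (a * x₀) + t) := by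
      intro t hz
      obtain ⟨a', ha', b, hb, rfl⟩ := Finset.mem_add.1 hz
      obtain ⟨a'', ha'', rfl⟩ := mem_dil.1 ha'
      obtain ⟨u, hu, rfl⟩ := mem_dil.1 ha''
      have h1 := (Pool.Agent.TH959.SQ.mem_cls.1 hu).2
      have h2 := (Pool.Agent.TH959.SQ.mem_cls.1 hb).2
      have h3 : ((p : ℤ) ^ L) ∣ dm x y W s * (a * (u - x₀)) := by
        refine Dvd.dvd.mul_left ?_ _
        refine (pow_dvd_pow (p : ℤ) hL).trans ?_
        rw [pow_add, mul_comm]
        exact mul_dvd_mul (by exact_mod_cast ha) h1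
      have h4 : dm x y W s * (a * u) + b - (dm x y W s * (a * x₀) + t) =
          dm x y W s * (a * (u - x₀)) + (b - t) := by ring
      rw [h4]
      exact dvd_add h3 h2
    have h5 := key t hz
    have h6 := key t' hz'
    have h7 := dvd_sub h6 h5
    refine hUi t ht t' ht' ?_
    have h8 : z - (dm x y W s * (a * x₀) + t') - (z - (dm x y W s * (a * x₀) + t)) = t - t' := by
      ring
    rwa [h8] at h7

/-- the gain in the branch with a multiplier divisible by `p ^ α` -/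
theorem branchI (x y : ι → ℕ) (V : Finset ι) {δ R κ₀ j₀ : ℝ} (hδ : 0 < δ) (hδ1 : δ < 1)
    (hR : 0 < R) {a N : ℕ} {p u v α : ℕ} (hu0 : 0 < u) (hu : p ^ α ∣ u)
    {X B : Finset ℤ} (hX : X.Nonempty) (hB : B.Nonempty)
    (ih : ∀ X B : Finset ℤ, X.Nonempty → B.Nonempty → bd δ R κ₀ j₀ N (Sz X B) ≤ mu x y V X B)
    (hv : 0 < v) {J L : ℕ} (hL : L ≤ J + α) {x₀ : ℤ} (hx₀ : x₀ ∈ X)
    (hheavy : X.card ≤ (cls ((p : ℤ) ^ J) X x₀).card * 2 ^ a)
    {iB : ℕ} {U : Finset ℤ} (hU : U ⊆ B) (hUn : U.Nonempty)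
    (hUi : ∀ t ∈ U, ∀ t' ∈ U, ((p : ℤ) ^ L) ∣ t - t' → t = t')
    (hU1 : ∀ t ∈ U, B.card ≤ 2 ^ (iB + 1) * (cls ((p : ℤ) ^ L) B t).card ∧
      2 ^ iB * (cls ((p : ℤ) ^ L) B t).card ≤ B.card)
    (hU2 : 2 ^ iB ≤ U.card * ((iB + 1) * (iB + 2)))
    (hB1 : psi iB + a * Real.log 2 + Real.log 2 ≤ δ * (iB * Real.log 2))
    (hB2 : R ≤ iB * Real.log 2) :
    bd δ R κ₀ j₀ (N + 1) (Sz X B) ≤ (mu x y V (dil u X) B + mu x y V (dil v X) B) / 2 := by
  have hl : 0 < Real.log 2 := Real.log_pos (by norm_num)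
  obtain ⟨hUl, hUk, hUc⟩ := sel_log hB hU hUn hUi hU1 hU2
  have huz : (u : ℤ) ≠ 0 := by exact_mod_cast hu0.ne'
  have hvz : (v : ℤ) ≠ 0 := by exact_mod_cast hv.ne'
  have cX : (0 : ℝ) < X.card := by exact_mod_cast hX.card_pos
  have hδ' : 0 ≤ 1 - δ := by linarith
  have h0 := ih (dil v X) B (dil_nonempty hX) hB
  have hSz₁ : Sz (dil v X) B = Sz X B := by unfold Sz; rw [card_dil hvz]
  rw [hSz₁] at h0
  have hcI := caseI x y V hu X B J L hL x₀ hx₀ U hU hUn hUi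
  rw [add_comm (mu x y V (dil u X) B)]
  refine bd_comb hR (S' := Sz X B - iB * Real.log 2) (g := Real.log U.card -
    (1 - δ) * (a * Real.log 2 + Real.log 2)) (by linarith) ?_ h0 (le_trans ?_ hcI)
  · have hk : 0 ≤ δ * (a * Real.log 2 + Real.log 2) := by positivity
    linarith
  · have h1 : ∀ t ∈ U, (1 - δ) * (Sz X B - a * Real.log 2 - (iB + 1) * Real.log 2) -
        κ₀ - (R / 2) * Real.exp (j₀ / 2) *
        Real.exp (2 / R * (Sz X B - iB * Real.log 2) - (N : ℝ) / 2) ≤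
        mu x y V (dil u (cls ((p : ℤ) ^ J) X x₀)) (cls ((p : ℤ) ^ L) B t) := by
      intro t ht
      obtain ⟨h2, h3⟩ := hUl t ht
      have hn1 : (cls ((p : ℤ) ^ J) X x₀).Nonempty := cls_nonempty _ hx₀
      have h4 := ih (dil u (cls ((p : ℤ) ^ J) X x₀)) (cls ((p : ℤ) ^ L) B t)
        (dil_nonempty hn1) (cls_nonempty _ (hU ht))
      refine le_trans ?_ h4
      have h5 : Sz (dil u (cls ((p : ℤ) ^ J) X x₀)) (cls ((p : ℤ) ^ L) B t) =
          Real.log (cls ((p : ℤ) ^ J) X x₀).card +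
            Real.log (cls ((p : ℤ) ^ L) B t).card := by
        unfold Sz
        rw [card_dil huz]
      have cc : (0 : ℝ) < (cls ((p : ℤ) ^ J) X x₀).card := by exact_mod_cast hn1.card_pos
      have h6 : Real.log (cls ((p : ℤ) ^ J) X x₀).card ≤ Real.log X.card :=
        Real.log_le_log cc (by exact_mod_cast Finset.card_le_card (cls_sub _ _ _))
      have h7 : Real.log X.card ≤ Real.log (cls ((p : ℤ) ^ J) X x₀).card +
          a * Real.log 2 := by
        rw [← Real.log_pow, ← Real.log_mul cc.ne' (by positivity)]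
        exact Real.log_le_log cX (by exact_mod_cast hheavy)
      apply bd_mono hR
      · apply mul_le_mul_of_nonneg_left _ hδ'
        rw [h5]
        unfold Sz
        linarith
      · rw [h5]
        unfold Sz
        linarith
    have h2 := avg_ge hUn h1
    unfold bd
    nlinarith

end Pool.Agent.T2h42.GE
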