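import Pool.Agent.T2h42.GD.Main

/-!
Sums of dilates by products of coprime ratios, without squarefreeness: definitions.
-/

set_option autoImplicit false

namespace Pool.Agent.T2h42.GE

open Finset Pool.Agent.TH83.SQ Pool.Agent.T2h42.GD
open scoped Pointwise Classical

variable {ι : Type*}

/-- admissible toggles -/
structure Tog (x y : ι → ℕ) (W : Finset ι) : Prop where
  pos : ∀ i ∈ W, 0 < x i ∧ 0 < y i
  ne : ∀ i ∈ W, x i ≠ y i
  self : ∀ i ∈ W, Nat.Coprime (x i) (y i)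
  cop : ∀ i ∈ W, ∀ j ∈ W, i ≠ j → Nat.Coprime (x i * y i) (x j * y j)

/-- the multipliers are spread modulo `q` -/
def Conc (x y : ι → ℕ) (W : Finset ι) (q : ℤ) (κ : ℝ) : Prop :=
  ∀ r : ℤ, ((W.powerset.filter fun s => q ∣ dm x y W s - r).card : ℝ) ≤ κ * 2 ^ W.card

/-- the lower bound for the mean: the constants `κ₀` and `j₀` are real numbers -/
noncomputable def bd (δ R κ₀ j₀ : ℝ) (j : ℕ) (S : ℝ) : ℝ :=
  (1 - δ) * S - κ₀ - (R / 2) * Real.exp (j₀ / 2) * Real.exp (2 / R * S - (j : ℝ) / 2)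

end Pool.Agent.T2h42.GE
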