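import Pool.Agent.T2h42.GE.Defs

/-!
Statements of the tasks.
-/

set_option autoImplicit false

namespace Pool.Agent.T2h42.GE

open Finset Pool.Agent.TH83.SQ Pool.Agent.T2h42.GD
open scoped Pointwise Classical

/-- task G1 -/
def G1 : Prop := ∀ {ι : Type} (x y : ι → ℕ) (W : Finset ι), Tog x y W → ∀ n K : ℕ, 1 ≤ n →
  (2 * n + 1) * K + 2 ≤ W.card →
  ∃ l ∈ W, ∃ p b : ℕ, p.Prime ∧ p ^ (n * b + 1) ∣ x l * y l ∧ ∃ R ⊆ W.erase l, K < R.card ∧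
    ∀ i ∈ R, ∀ j ∈ R, (p : ℤ) ^ (b + 1) ∣ (x i : ℤ) * y j - x j * y i → i = j

/-- task G2 -/
def G2 : Prop := ∀ {ι : Type} (x y : ι → ℕ) (W R : Finset ι) (p : ℕ), p.Prime → Free x y W p →
  R ⊆ W → ∀ e K : ℕ, 0 < K → K ≤ R.card →
  (∀ i ∈ R, ∀ j ∈ R, (p : ℤ) ^ e ∣ (x i : ℤ) * y j - x j * y i → i = j) →
  Conc x y W ((p : ℤ) ^ e) (2 / K)

/-- task G3 -/
def G3 : Prop := ∀ {ι : Type} (x y : ι → ℕ) (W : Finset ι) (p : ℕ), p.Prime → ∀ (κ : ℝ), 0 ≤ κ →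
  ∀ b : ℕ, Conc x y W ((p : ℤ) ^ (b + 1)) κ → ∀ (X B : Finset ℤ) (I : ℕ) (T : Finset ℤ),
  T ⊆ X → T.Nonempty → (∀ t ∈ T, ∀ t' ∈ T, ((p : ℤ) ^ I) ∣ t - t' → t = t') →
  ∀ U : Finset ℤ, U ⊆ B → U.Nonempty →
  (∀ t ∈ U, ∀ t' ∈ U, ((p : ℤ) ^ (I + b)) ∣ t - t' → t = t') →
  ∀ β : ℝ, ((T.card : ℝ) * U.card) ^ 2 * κ ≤ β →
  (1 - β) * (Real.log T.card + Real.log U.card) +
    (∑ t ∈ T, ∑ v ∈ U, mu x y W (cls ((p : ℤ) ^ (I + b)) X t) (cls ((p : ℤ) ^ (I + b)) B v)) /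
      (T.card * U.card) ≤ mu x y W X B

/-- task G4: a window of levels (`J, J + b, …, J + n b`) on which the classes hardly shrink -/
def G4 : Prop := ∀ (p : ℕ), p.Prime → ∀ (X T₀ : Finset ℤ) (J b n i : ℕ), T₀ ⊆ X → T₀.Nonempty →
  (∀ t ∈ T₀, ∀ t' ∈ T₀, ((p : ℤ) ^ (J + n * b)) ∣ t - t' → t = t') →
  (∀ t ∈ T₀, X.card ≤ 2 ^ (i + 1) * (cls ((p : ℤ) ^ (J + n * b)) X t).card) →
  i + 1 ≤ n →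
  ∃ r m : ℕ, r < n ∧ m ≤ i + 1 ∧ ∃ T ⊆ T₀, T.Nonempty ∧
    (∀ t ∈ T, ∀ t' ∈ T, ((p : ℤ) ^ (J + r * b)) ∣ t - t' → t = t') ∧
    (∀ t ∈ T, 2 ^ m * (cls ((p : ℤ) ^ (J + r * b)) X t).card ≤ X.card ∧
      X.card < 2 ^ (m + 1) * (cls ((p : ℤ) ^ (J + r * b)) X t).card ∧
      (cls ((p : ℤ) ^ (J + r * b)) X t).card ≤ 2 * (cls ((p : ℤ) ^ (J + (r + 1) * b)) X t).card) ∧
    2 ^ m * T₀.card ≤ n * (i + 2) * 2 ^ (i + 1) * T.card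

/-- task G5: the constants -/
def G5 : Prop := ∀ (δ R : ℝ), 0 < δ → 0 < R → ∃ a MB MX n : ℕ,
  (∀ i : ℕ, MB ≤ i → psi i + a * Real.log 2 + Real.log 2 ≤ δ * (i * Real.log 2) ∧
    R ≤ i * Real.log 2) ∧
  (∀ i : ℕ, MX ≤ i → psi i + Real.log 2 + (MB + 1) * Real.log 2 ≤ δ * (i * Real.log 2) ∧
    R ≤ i * Real.log 2) ∧
  1 ≤ n ∧ MX ≤ n ∧ R ≤ a * Real.log 2 ∧
  ∀ i m iB : ℕ, i < MX → a ≤ m → Real.log (2 * (n * (i + 1) * (i + 2) ^ 2)) + psi iB +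
    3 * Real.log 2 ≤ δ / 2 * ((m + iB) * Real.log 2)

end Pool.Agent.T2h42.GE
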