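import Pool.Agent.T2h42.GE.Bd
import Pool.Agent.T2h42.GE.Stm

/-!
The induction for sums of dilates by products of coprime ratios.
-/

set_option autoImplicit false

namespace Pool.Agent.T2h42.GE

open Finset Pool.Agent.TH83.SQ
open Pool.Agent.T2h42.GD (mu dm mu_avg Free mu_insert mu_nonneg dm_cop cls_dil' caseIIa)
open scoped Pointwise Classical

theorem Tog.mono {ι : Type*} {x y : ι → ℕ} {W V : Finset ι} (h : Tog x y W) (hV : V ⊆ W) :
    Tog x y V :=
  ⟨fun i hi => h.pos i (hV hi), fun i hi => h.ne i (hV hi), fun i hi => h.self i (hV hi),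
    fun i hi j hj hij => h.cop i (hV hi) j (hV hj) hij⟩

theorem Tog.free {ι : Type*} {x y : ι → ℕ} {W : Finset ι} (h : Tog x y W) {l : ι} (hl : l ∈ W)
    {p : ℕ} (hp : p.Prime) (hpl : p ∣ x l * y l) : Free x y (W.erase l) p := by
  intro i hi
  obtain ⟨hil, hiW⟩ := Finset.mem_erase.1 hi
  have hc := h.cop i hiW l hl hil
  constructor
  · intro hd
    have h1 : p ∣ x i * y i := hd.mul_right _
    exact Nat.not_coprime_of_dvd_of_dvd hp.one_lt h1 hpl hc
  · intro hd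
    have h1 : p ∣ x i * y i := hd.mul_left _
    exact Nat.not_coprime_of_dvd_of_dvd hp.one_lt h1 hpl hc

/-- classes shrink with the level -/
theorem cls_anti {p J J' : ℕ} (h : J ≤ J') (X : Finset ℤ) (t : ℤ) :
    cls ((p : ℤ) ^ J') X t ⊆ cls ((p : ℤ) ^ J) X t := by
  intro z hz
  obtain ⟨h1, h2⟩ := Finset.mem_filter.1 hz
  exact Finset.mem_filter.2 ⟨h1, (pow_dvd_pow _ h).trans h2⟩

/-- the level at which `X` is no longer concentrated -/
theorem exists_level {p : ℕ} (hp : 2 ≤ p) {X X₁ B : Finset ℤ} (hX₁ : X₁.Nonempty)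
    (hc : X₁.card = X.card) (a α : ℕ)
    (hcls : ∀ J : ℕ, ∃ x₀ ∈ X, (cls ((p : ℤ) ^ J) X x₀).card = mx ((p : ℤ) ^ J) X₁) :
    ∃ J : ℕ, ∃ x₀ ∈ X, X.card ≤ (cls ((p : ℤ) ^ J) X x₀).card * 2 ^ a ∧
      (2 ^ a * mx ((p : ℤ) ^ (J + 1)) X₁ < X.card ∨
        (X.card ≤ 2 ^ a ∧ mx ((p : ℤ) ^ (J + α)) B ≤ 1)) := by
  rcases le_or_gt X.card (2 ^ a) with h | h
  · obtain ⟨J₀, hJ₀⟩ := mx_large hp B
    obtain ⟨x₀, hx₀, _⟩ := hcls J₀
    refine ⟨J₀, x₀, hx₀, ?_, Or.inr ⟨h, hJ₀ _ (Nat.le_add_right _ _)⟩⟩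
    have h1 : 0 < (cls ((p : ℤ) ^ J₀) X x₀).card := (cls_nonempty _ hx₀).card_pos
    calc X.card ≤ 1 * 2 ^ a := by rw [one_mul]; exact h
      _ ≤ _ := Nat.mul_le_mul_right _ h1
  · have hex : ∃ J : ℕ, 2 ^ a * mx ((p : ℤ) ^ J) X₁ < X.card := by
      obtain ⟨J₀, hJ₀⟩ := mx_large hp X₁
      refine ⟨J₀, lt_of_le_of_lt ?_ h⟩
      calc 2 ^ a * mx ((p : ℤ) ^ J₀) X₁ ≤ 2 ^ a * 1 := Nat.mul_le_mul_left _ (hJ₀ _ le_rfl)
        _ = 2 ^ a := mul_one _
    have h1 := Nat.find_spec hex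
    have h2 : Nat.find hex ≠ 0 := by
      intro h0
      rw [h0, pow_zero, mx_one' hX₁, hc] at h1
      have h3 : 1 * X.card ≤ 2 ^ a * X.card := Nat.mul_le_mul_right _ Nat.one_le_two_pow
      omega
    obtain ⟨J, hJ⟩ := Nat.exists_eq_succ_of_ne_zero h2
    have h3 := Nat.find_min hex (m := J) (by rw [hJ]; exact Nat.lt_succ_self J)
    obtain ⟨x₀, hx₀, hx₀m⟩ := hcls J
    refine ⟨J, x₀, hx₀, ?_, Or.inl ?_⟩
    · rw [hx₀m, mul_comm]
      exact not_lt.1 h3
    · rw [hJ] at h1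
      exact h1

theorem mu_ge (g1 : G1) (g2 : G2) (g3 : G3) (g4 : G4) {ι : Type} (x y : ι → ℕ) {δ R : ℝ}
    (hδ : 0 < δ) (hδ1 : δ < 1) (hR : 0 < R) {a MB MX n K : ℕ}
    (hMB : ∀ i : ℕ, MB ≤ i → psi i + a * Real.log 2 + Real.log 2 ≤ δ * (i * Real.log 2) ∧
      R ≤ i * Real.log 2)
    (hMX : ∀ i : ℕ, MX ≤ i → psi i + Real.log 2 + (MB + 1) * Real.log 2 ≤
      δ * (i * Real.log 2) ∧ R ≤ i * Real.log 2)
    (hn : 1 ≤ n) (hMXn : MX ≤ n) (hRa : R ≤ a * Real.log 2)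
    (hgen : ∀ i m iB : ℕ, i < MX → a ≤ m → Real.log (2 * (n * (i + 1) * (i + 2) ^ 2)) + psi iB +
      3 * Real.log 2 ≤ δ / 2 * ((m + iB) * Real.log 2))
    (hK : 0 < K) (hKc : ((2 : ℝ) ^ (MX + 1) * 2 ^ MB) ^ 2 * (2 / K) ≤ δ / 2)
    {κ₀ j₀ : ℝ} (hκ₀ : κ₀ = Real.log ((2 ^ (a + MB + 1) : ℕ) : ℝ))
    (hj₀ : j₀ = (((2 * n + 1) * K + 2 : ℕ) : ℝ)) (N : ℕ) :
    ∀ W : Finset ι, W.card = N → Tog x y W → ∀ X B : Finset ℤ, X.Nonempty → B.Nonempty →
      bd δ R κ₀ j₀ W.card (Sz X B) ≤ mu x y W X B := by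
  have hl : 0 < Real.log 2 := Real.log_pos (by norm_num)
  have hκ0 : 0 ≤ κ₀ := by rw [hκ₀]; exact Real.log_natCast_nonneg _
  induction N with
  | zero =>
    intro W hW _ X B hX hB
    refine (bd_small hδ hR hκ0 (by rw [hW, hj₀]; exact_mod_cast Nat.zero_le _)
      (Sz_nonneg X B)).trans (mu_nonneg _ _ _ _ _)
  | succ N ih =>
    intro W hWN hT' X B hX hB
    by_cases hj : N + 1 < (2 * n + 1) * K + 2
    · exact (bd_small hδ hR hκ0 (by rw [hWN, hj₀]; exact_mod_cast hj.le) (Sz_nonneg X B)).trans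
        (mu_nonneg _ _ _ _ _)
    push Not at hj
    by_cases hS : Sz X B ≤ κ₀
    · exact (bd_low hδ hR (Sz_nonneg X B) hS).trans (mu_nonneg _ _ _ _ _)
    push Not at hS
    have cX : (0 : ℝ) < X.card := by exact_mod_cast hX.card_pos
    have cB : (0 : ℝ) < B.card := by exact_mod_cast hB.card_pos
    have hbig : 2 ^ (a + MB + 1) < X.card * B.card := by
      have h1 : Real.log ((2 ^ (a + MB + 1) : ℕ) : ℝ) < Real.log (X.card * B.card) := by
        rw [Real.log_mul cX.ne' cB.ne', ← hκ₀]; exact hS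
      have h2 := (Real.log_lt_log_iff (by positivity) (by positivity)).1 h1
      exact_mod_cast h2
    -- the good toggle
    obtain ⟨l, hlW, p, b, hp, hpl, Rr, hRr, hRc, hRd⟩ := g1 x y W hT' n K hn (by omega)
    set V : Finset ι := W.erase l with hV
    have hVc : V.card = N := by rw [hV, Finset.card_erase_of_mem hlW, hWN]; rfl
    have hVT : Tog x y V := hT'.mono (Finset.erase_subset _ _)
    have hpl1 : p ∣ x l * y l := (dvd_pow_self p (Nat.succ_ne_zero _)).trans hpl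
    have hfree : Free x y V p := hT'.free hlW hp hpl1
    have hconc : Conc x y V ((p : ℤ) ^ (b + 1)) (2 / K) :=
      g2 x y V Rr p hp hfree hRr (b + 1) K hK hRc.le hRd
    have ih' : ∀ X B : Finset ℤ, X.Nonempty → B.Nonempty → bd δ R κ₀ j₀ N (Sz X B) ≤
        mu x y V X B := by
      intro X B hX hB
      have := ih V hVc hVT X B hX hB
      rwa [hVc] at this
    have hWins : W = insert l V := by rw [hV, Finset.insert_erase hlW]
    have hlV : l ∉ V := by rw [hV]; exact Finset.notMem_erase _ _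
    obtain ⟨hxl, hyl⟩ := hT'.pos l hlW
    have hcxy := hT'.self l hlW
    set α := n * b + 1 with hα
    obtain ⟨u, v, hu0, hv0, hpu, hpv, hmu⟩ : ∃ u v : ℕ, 0 < u ∧ 0 < v ∧ p ^ α ∣ u ∧ ¬ p ∣ v ∧
        mu x y W X B = (mu x y V (dil u X) B + mu x y V (dil v X) B) / 2 := by
      rcases (Nat.Prime.dvd_mul hp).1 hpl1 with h | h
      · have h' : ¬ p ∣ y l := fun h' => Nat.not_coprime_of_dvd_of_dvd hp.one_lt h h' hcxy
        refine ⟨x l, y l, hxl, hyl, ?_, h', ?_⟩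
        · exact Nat.Coprime.dvd_of_dvd_mul_right
            (Nat.Coprime.pow_left _ ((Nat.Prime.coprime_iff_not_dvd hp).2 h')) hpl
        · rw [hWins, mu_insert x y hlV]; ring
      · have h' : ¬ p ∣ x l := fun h' => Nat.not_coprime_of_dvd_of_dvd hp.one_lt h' h hcxy
        refine ⟨y l, x l, hyl, hxl, ?_, h', ?_⟩
        · exact Nat.Coprime.dvd_of_dvd_mul_left
            (Nat.Coprime.pow_left _ ((Nat.Prime.coprime_iff_not_dvd hp).2 h')) hpl
        · rw [hWins, mu_insert x y hlV]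
    have hcb : IsCoprime (p : ℤ) (v : ℤ) := by
      rw [Nat.isCoprime_iff_coprime]
      exact (Nat.Prime.coprime_iff_not_dvd hp).2 hpv
    have hvz : (v : ℤ) ≠ 0 := by exact_mod_cast hv0.ne'
    have huz : (u : ℤ) ≠ 0 := by exact_mod_cast hu0.ne'
    set X₁ : Finset ℤ := dil v X with hX₁
    have hX₁n : X₁.Nonempty := dil_nonempty hX
    have hX₁c : X₁.card = X.card := card_dil hvz X
    have hSz₁ : Sz X₁ B = Sz X B := by unfold Sz; rw [hX₁c]
    have hlX : Real.log X₁.card = Real.log X.card := by rw [hX₁c]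
    have hcls : ∀ J : ℕ, ∃ x₀ ∈ X, (cls ((p : ℤ) ^ J) X x₀).card = mx ((p : ℤ) ^ J) X₁ := by
      intro J
      obtain ⟨x₁, hx₁, hx₁m⟩ := exists_mx ((p : ℤ) ^ J) hX₁n
      obtain ⟨x₀, hx₀, rfl⟩ := Finset.mem_image.1 hx₁
      refine ⟨x₀, hx₀, ?_⟩
      rw [← hx₁m, hX₁, cls_dil' hcb.pow_left, card_dil hvz]
    obtain ⟨J, x₀, hx₀, hheavy, hlev⟩ := exists_level hp.two_le (B := B) hX₁n hX₁c a α hcls
    have hδ' : 0 ≤ 1 - δ := by linarith
    rw [hmu, hWN]
    -- the branch with the multiple of `p ^ α`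
    have hbr : ∀ (L iB : ℕ) (U : Finset ℤ), L ≤ J + α → U ⊆ B → U.Nonempty →
        (∀ t ∈ U, ∀ t' ∈ U, ((p : ℤ) ^ L) ∣ t - t' → t = t') →
        (∀ t ∈ U, B.card ≤ 2 ^ (iB + 1) * (cls ((p : ℤ) ^ L) B t).card ∧
          2 ^ iB * (cls ((p : ℤ) ^ L) B t).card ≤ B.card) →
        2 ^ iB ≤ U.card * ((iB + 1) * (iB + 2)) → MB ≤ iB →
        bd δ R κ₀ j₀ (N + 1) (Sz X B) ≤ (mu x y V (dil u X) B + mu x y V X₁ B) / 2 := by
      intro L iB U hL hU hUn hUi hU1 hU2 hiB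
      obtain ⟨hB1, hB2⟩ := hMB iB hiB
      exact branchI x y V hδ hδ1 hR hu0 hpu hX hB ih' hv0 hL hx₀ hheavy hU hUn hUi hU1 hU2
        hB1 hB2
    -- the selections at the top level
    obtain ⟨iX, T, hT, hTn, hTi, hT1, hT2⟩ := sel ((p : ℤ) ^ (J + α)) X₁ hX₁n
    obtain ⟨iB, U, hU, hUn, hUi, hU1, hU2⟩ := sel ((p : ℤ) ^ (J + α)) B hB
    by_cases hiB : MB ≤ iB
    · exact hbr _ iB U le_rfl hU hUn hUi hU1 hU2 hiB
    push Not at hiB
    have hlev' : 2 ^ a * mx ((p : ℤ) ^ (J + 1)) X₁ < X.card := by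
      rcases hlev with h | ⟨h1, h2⟩
      · exact h
      · exfalso
        obtain ⟨t, ht⟩ := hUn
        have h3 := (hU1 t ht).1
        have h4 : (cls ((p : ℤ) ^ (J + α)) B t).card ≤ 1 := (le_mx _ (hU ht)).trans h2
        have h5 : B.card ≤ 2 ^ MB := by
          calc B.card ≤ 2 ^ (iB + 1) * (cls ((p : ℤ) ^ (J + α)) B t).card := h3
            _ ≤ 2 ^ (iB + 1) * 1 := Nat.mul_le_mul_left _ h4
            _ = 2 ^ (iB + 1) := mul_one _
            _ ≤ 2 ^ MB := Nat.pow_le_pow_right (by norm_num) (by omega)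
        have h6 : X.card * B.card ≤ 2 ^ (a + MB + 1) := by
          calc X.card * B.card ≤ 2 ^ a * 2 ^ MB := Nat.mul_le_mul h1 h5
            _ = 2 ^ (a + MB) := by rw [pow_add]
            _ ≤ _ := Nat.pow_le_pow_right (by norm_num) (by omega)
        omega
    have h0a : bd δ R κ₀ j₀ N (Sz X B) ≤ mu x y V (dil u X) B := by
      have h0 := ih' (dil u X) B (dil_nonempty hX) hB
      have h0' : Sz (dil u X) B = Sz X B := by unfold Sz; rw [card_dil huz]
      rwa [h0'] at h0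
    by_cases hiX : MX ≤ iX
    · -- large residue entropy of `X`
      obtain ⟨hX1, hX2⟩ := hMX iX hiX
      obtain ⟨hTl, hTk, hTc⟩ := sel_log hX₁n hT hTn hTi hT1 hT2
      obtain ⟨hUl, hUk, hUc⟩ := sel_log hB hU hUn hUi hU1 hU2
      rw [hlX] at hTl
      obtain ⟨b₀, hb₀⟩ := hUn
      have hcI := caseIIa x y V hp hfree X₁ B (J + α) T hT hTn hTi b₀ (hU hb₀)
      have hiB' : (iB : ℝ) + 1 ≤ MB := by exact_mod_cast hiB
      refine bd_comb hR (S' := Sz X B - iX * Real.log 2) (g := Real.log T.card -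
        (1 - δ) * ((MB + 1) * Real.log 2)) (by linarith) ?_ h0a (le_trans ?_ hcI)
      · have hk : 0 ≤ δ * (((MB : ℝ) + 1) * Real.log 2) := by positivity
        linarith
      · obtain ⟨h8, h9⟩ := hUl b₀ hb₀
        have h1 : ∀ t ∈ T, (1 - δ) * (Sz X B - (iX + 1) * Real.log 2 - (iB + 1) * Real.log 2) -
            κ₀ - (R / 2) * Real.exp (j₀ / 2) *
            Real.exp (2 / R * (Sz X B - iX * Real.log 2) - (N : ℝ) / 2) ≤
            mu x y V (cls ((p : ℤ) ^ (J + α)) X₁ t) (cls ((p : ℤ) ^ (J + α)) B b₀) := by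
          intro t ht
          obtain ⟨h2, h3⟩ := hTl t ht
          have h4 := ih' (cls ((p : ℤ) ^ (J + α)) X₁ t) (cls ((p : ℤ) ^ (J + α)) B b₀)
            (cls_nonempty _ (hT ht)) (cls_nonempty _ (hU hb₀))
          refine le_trans ?_ h4
          have h10 : 0 ≤ iB * Real.log 2 := by positivity
          apply bd_mono hR
          · apply mul_le_mul_of_nonneg_left _ hδ'
            unfold Sz
            linarith
          · unfold Sz
            linarith
        have h2 := avg_ge hTn h1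
        have h10 : (1 - δ) * ((iB + 1) * Real.log 2) ≤ (1 - δ) * (MB * Real.log 2) :=
          mul_le_mul_of_nonneg_left (mul_le_mul_of_nonneg_right hiB' hl.le) hδ'
        unfold bd
        nlinarith
    push Not at hiX
    -- the window
    have hLe : J + α = (J + 1) + n * b := by rw [hα]; ring
    rw [hLe] at hTi hT1
    obtain ⟨r, m, hrn, hmi, T', hT'T, hT'n, hT'i, hT'1, hT'2⟩ := g4 p hp X₁ T (J + 1) b n iX hT hTn
      hTi (fun t ht => (hT1 t ht).1) (by omega)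
    set I := J + 1 + r * b with hI
    have hIb : J + 1 + (r + 1) * b = I + b := by rw [hI]; ring
    rw [hIb] at hT'1
    have hT'X : T' ⊆ X₁ := hT'T.trans hT
    have ham : a ≤ m := by
      obtain ⟨t, ht⟩ := hT'n
      obtain ⟨_, h2, _⟩ := hT'1 t ht
      have h3 : (cls ((p : ℤ) ^ I) X₁ t).card ≤ mx ((p : ℤ) ^ (J + 1)) X₁ :=
        (Finset.card_le_card (cls_anti (by rw [hI]; omega) X₁ t)).trans (le_mx _ (hT'X ht))
      rw [hX₁c] at h2
      have h4 : 2 ^ a * mx ((p : ℤ) ^ (J + 1)) X₁ < 2 ^ (m + 1) * mx ((p : ℤ) ^ (J + 1)) X₁ :=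
        hlev'.trans (h2.trans_le (Nat.mul_le_mul_left _ h3))
      have h5 : 2 ^ a < 2 ^ (m + 1) := lt_of_mul_lt_mul_right h4 (Nat.zero_le _)
      have h6 := (Nat.pow_lt_pow_iff_right (by norm_num : 1 < 2)).1 h5
      omega
    have hIL : I + b ≤ J + α := by
      rw [hLe, hI]
      have : (r + 1) * b ≤ n * b := Nat.mul_le_mul_right _ hrn
      have e : J + 1 + r * b + b = J + 1 + (r + 1) * b := by ring
      rw [e]
      omega
    obtain ⟨iB', U', hU', hUn', hUi', hU1', hU2'⟩ := sel ((p : ℤ) ^ (I + b)) B hB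
    by_cases hiB' : MB ≤ iB'
    · exact hbr _ iB' U' hIL hU' hUn' hUi' hU1' hU2' hiB'
    push Not at hiB'
    obtain ⟨hUl, hUk, hUc⟩ := sel_log hB hU' hUn' hUi' hU1' hU2'
    -- sizes of the selection in `X`
    have cT' : (0 : ℝ) < T'.card := by exact_mod_cast hT'n.card_pos
    have hT'c : T'.card ≤ 2 ^ (MX + 1) := by
      have h1 : T'.card * X₁.card ≤ 2 ^ (m + 1) * X₁.card := by
        calc T'.card * X₁.card = ∑ _t ∈ T', X₁.card := by rw [Finset.sum_const, smul_eq_mul]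
          _ ≤ ∑ t ∈ T', 2 ^ (m + 1) * (cls ((p : ℤ) ^ I) X₁ t).card :=
              Finset.sum_le_sum fun t ht => (hT'1 t ht).2.1.le
          _ = 2 ^ (m + 1) * ∑ t ∈ T', (cls ((p : ℤ) ^ I) X₁ t).card := by rw [Finset.mul_sum]
          _ ≤ 2 ^ (m + 1) * X₁.card := Nat.mul_le_mul_left _ (sum_cls_le hT'i)
      have h2 := Nat.le_of_mul_le_mul_right h1 hX₁n.card_pos
      exact h2.trans (Nat.pow_le_pow_right (by norm_num) (by omega))
    have hTlog : m * Real.log 2 - Real.log (2 * (n * (iX + 1) * (iX + 2) ^ 2)) ≤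
        Real.log T'.card := by
      have h1 : 2 ^ m ≤ 2 * (n * (iX + 1) * (iX + 2) ^ 2) * T'.card := by
        have h2 : 2 ^ m * 2 ^ iX ≤ 2 * (n * (iX + 1) * (iX + 2) ^ 2) * T'.card * 2 ^ iX := by
          calc 2 ^ m * 2 ^ iX ≤ 2 ^ m * (T.card * ((iX + 1) * (iX + 2))) :=
                Nat.mul_le_mul_left _ hT2
            _ = 2 ^ m * T.card * ((iX + 1) * (iX + 2)) := by ring
            _ ≤ n * (iX + 2) * 2 ^ (iX + 1) * T'.card * ((iX + 1) * (iX + 2)) :=
                Nat.mul_le_mul_right _ hT'2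
            _ = _ := by rw [pow_succ]; ring
        exact Nat.le_of_mul_le_mul_right h2 (by positivity)
      have h3 : (2 : ℝ) ^ m ≤ 2 * (n * (iX + 1) * (iX + 2) ^ 2) * T'.card := by exact_mod_cast h1
      have hn0 : (0 : ℝ) < n := by exact_mod_cast hn
      have hps0 : (0 : ℝ) < 2 * (n * (iX + 1) * (iX + 2) ^ 2) := by
        have hi0 : (0 : ℝ) ≤ iX := Nat.cast_nonneg _
        exact mul_pos two_pos (mul_pos (mul_pos hn0 (by linarith)) (pow_pos (by linarith) 2))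
      have h4 := Real.log_le_log (pow_pos two_pos m) h3
      rw [Real.log_mul hps0.ne' cT'.ne', Real.log_pow] at h4
      linarith
    have hTl : ∀ t ∈ T', Real.log X.card - (m + 2) * Real.log 2 ≤
        Real.log (cls ((p : ℤ) ^ (I + b)) X₁ t).card ∧
        Real.log (cls ((p : ℤ) ^ (I + b)) X₁ t).card ≤ Real.log X.card - m * Real.log 2 := by
      intro t ht
      obtain ⟨a1, a2, a3⟩ := hT'1 t ht
      have cc : (0 : ℝ) < (cls ((p : ℤ) ^ (I + b)) X₁ t).card := by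
        exact_mod_cast (cls_nonempty _ (hT'X ht)).card_pos
      rw [← hlX]
      constructor
      · have h3 : X₁.card ≤ 2 ^ (m + 2) * (cls ((p : ℤ) ^ (I + b)) X₁ t).card := by
          calc X₁.card ≤ 2 ^ (m + 1) * (cls ((p : ℤ) ^ I) X₁ t).card := a2.le
            _ ≤ 2 ^ (m + 1) * (2 * (cls ((p : ℤ) ^ (I + b)) X₁ t).card) :=
                Nat.mul_le_mul_left _ a3
            _ = _ := by rw [pow_succ 2 (m + 1)]; ring
        have h3' : (X₁.card : ℝ) ≤ 2 ^ (m + 2) * (cls ((p : ℤ) ^ (I + b)) X₁ t).card := by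
          exact_mod_cast h3
        have h4 := Real.log_le_log (by rw [hX₁c]; exact cX) h3'
        rw [Real.log_mul (by positivity) cc.ne', Real.log_pow] at h4
        push_cast at h4
        linarith
      · have h3 : 2 ^ m * (cls ((p : ℤ) ^ (I + b)) X₁ t).card ≤ X₁.card :=
          (Nat.mul_le_mul_left _ (Finset.card_le_card
            (cls_anti (Nat.le_add_right _ _) X₁ t))).trans a1
        have h3' : (2 : ℝ) ^ m * (cls ((p : ℤ) ^ (I + b)) X₁ t).card ≤ X₁.card := by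
          exact_mod_cast h3
        have h4 := Real.log_le_log (mul_pos (pow_pos two_pos m) cc) h3'
        rw [Real.log_mul (pow_pos two_pos m).ne' cc.ne', Real.log_pow] at h4
        linarith
    have hβ : ((T'.card : ℝ) * U'.card) ^ 2 * (2 / K) ≤ δ / 2 := by
      have h1 : (T'.card : ℝ) ≤ 2 ^ (MX + 1) := by exact_mod_cast hT'c
      have h2 : (U'.card : ℝ) ≤ 2 ^ MB := by
        have : U'.card ≤ 2 ^ MB := hUc.trans (Nat.pow_le_pow_right (by norm_num) (by omega))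
        exact_mod_cast this
      have h3 : (T'.card : ℝ) * U'.card ≤ 2 ^ (MX + 1) * 2 ^ MB :=
        mul_le_mul h1 h2 (Nat.cast_nonneg _) (pow_nonneg (by norm_num) _)
      have h4 : ((T'.card : ℝ) * U'.card) ^ 2 ≤ (2 ^ (MX + 1) * 2 ^ MB) ^ 2 :=
        pow_le_pow_left₀ (mul_nonneg (Nat.cast_nonneg _) (Nat.cast_nonneg _)) h3 2
      refine le_trans ?_ hKc
      exact mul_le_mul_of_nonneg_right h4 (div_nonneg (by norm_num) (Nat.cast_nonneg _))
    have hcI := g3 x y V p hp (2 / K) (div_nonneg (by norm_num) (Nat.cast_nonneg _)) b hconc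
      X₁ B I T' hT'X hT'n hT'i U' hU' hUn' hUi' (δ / 2) hβ
    have hnum := hgen iX m iB' hiX ham
    have hps : 0 ≤ Real.log (2 * (n * (iX + 1) * (iX + 2) ^ 2) : ℝ) := by
      apply Real.log_nonneg
      have hn1 : (1 : ℝ) ≤ n := by exact_mod_cast hn
      have hi0 : (0 : ℝ) ≤ iX := Nat.cast_nonneg _
      have h1 : (1 : ℝ) ≤ n * (iX + 1) := by nlinarith
      have h2 : (1 : ℝ) ≤ ((iX : ℝ) + 2) ^ 2 := by nlinarith
      nlinarith
    have hps2 : 0 ≤ psi iB' :=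
      Real.log_nonneg (by nlinarith [(Nat.cast_nonneg iB' : (0:ℝ) ≤ iB')])
    have hmR : R ≤ m * Real.log 2 := by
      refine hRa.trans (mul_le_mul_of_nonneg_right (by exact_mod_cast ham) hl.le)
    have hiB0 : 0 ≤ iB' * Real.log 2 := by positivity
    refine bd_comb hR (S' := Sz X B - (m + iB') * Real.log 2)
      (g := (1 - δ / 2) * (Real.log T'.card + Real.log U'.card) - (1 - δ) * (3 * Real.log 2))
      (by linarith) ?_ h0a (le_trans ?_ hcI)
    · have hx1 : (1 - δ / 2) * (m * Real.log 2 - Real.log (2 * (n * (iX + 1) * (iX + 2) ^ 2)) +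
          (iB' * Real.log 2 - psi iB')) ≤
          (1 - δ / 2) * (Real.log T'.card + Real.log U'.card) :=
        mul_le_mul_of_nonneg_left (by linarith) (by linarith)
      nlinarith
    · have h1 : ∀ t ∈ T', (1 - δ) * (Sz X B - (m + iB' + 3) * Real.log 2) -
          κ₀ - (R / 2) * Real.exp (j₀ / 2) *
          Real.exp (2 / R * (Sz X B - (m + iB') * Real.log 2) - (N : ℝ) / 2) ≤
          (∑ v ∈ U', mu x y V (cls ((p : ℤ) ^ (I + b)) X₁ t) (cls ((p : ℤ) ^ (I + b)) B v)) /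
            U'.card := by
        intro t ht
        obtain ⟨h2, h3⟩ := hTl t ht
        apply avg_ge hUn'
        intro v hv
        obtain ⟨h8, h9⟩ := hUl v hv
        have h4 := ih' (cls ((p : ℤ) ^ (I + b)) X₁ t) (cls ((p : ℤ) ^ (I + b)) B v)
          (cls_nonempty _ (hT'X ht)) (cls_nonempty _ (hU' hv))
        refine le_trans ?_ h4
        apply bd_mono hR
        · apply mul_le_mul_of_nonneg_left _ hδ'
          unfold Sz
          linarith
        · unfold Sz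
          linarith
      have h2 := avg_ge hT'n h1
      have h3 : (∑ t ∈ T', (∑ v ∈ U', mu x y V (cls ((p : ℤ) ^ (I + b)) X₁ t)
          (cls ((p : ℤ) ^ (I + b)) B v)) / U'.card) / T'.card =
          (∑ t ∈ T', ∑ v ∈ U', mu x y V (cls ((p : ℤ) ^ (I + b)) X₁ t)
            (cls ((p : ℤ) ^ (I + b)) B v)) / (T'.card * U'.card) := by
        rw [← Finset.sum_div, div_div, mul_comm (U'.card : ℝ)]
      rw [h3] at h2
      unfold bd
      nlinarith

/-- **Dilates by products of coprime ratios**, without squarefreeness. -/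
theorem dilates_of (g1 : G1) (g2 : G2) (g3 : G3) (g4 : G4) (g5 : G5) (δ θ : ℝ) (hδ : 0 < δ)
    (hθ : 0 < θ) :
    ∃ C : ℝ, ∀ {ι : Type} (x y : ι → ℕ) (W : Finset ι), Tog x y W →
      ∀ X B : Finset ℤ, X.Nonempty → B.Nonempty →
      θ * (Real.log X.card + Real.log B.card) ≤ W.card →
      ∃ s ⊆ W, (1 - δ) * (Real.log X.card + Real.log B.card) - C ≤
        Real.log ((dil (dm x y W s) X + B).card : ℝ) := by
  have hδ1 : min δ (1 / 2) < 1 := lt_of_le_of_lt (min_le_right _ _) (by norm_num)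
  have hδ0 : 0 < min δ (1 / 2) := lt_min hδ (by norm_num)
  have hθ4 : 0 < 4 / θ := div_pos (by norm_num) hθ
  obtain ⟨a, MB, MX, n, hMB, hMX, hn, hMXn, hRa, hgen⟩ := g5 (min δ (1 / 2)) (4 / θ) hδ0 hθ4
  set δ' := min δ (1 / 2) with hδ'
  obtain ⟨K, hK⟩ := exists_nat_ge (((2 : ℝ) ^ (MX + 1) * 2 ^ MB) ^ 2 * 2 / (δ' / 2))
  have hpos : (0 : ℝ) < ((2 : ℝ) ^ (MX + 1) * 2 ^ MB) ^ 2 * 2 / (δ' / 2) := by positivity
  have hK0 : (0 : ℝ) < K := lt_of_lt_of_le hpos hK
  have hKc : ((2 : ℝ) ^ (MX + 1) * 2 ^ MB) ^ 2 * (2 / K) ≤ δ' / 2 := by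
    rw [div_le_iff₀ (by positivity)] at hK
    rw [← mul_div_assoc, div_le_iff₀ hK0]
    linarith
  set κ₀ := Real.log ((2 ^ (a + MB + 1) : ℕ) : ℝ) with hκ₀
  set j₀ : ℝ := (((2 * n + 1) * K + 2 : ℕ) : ℝ) with hj₀
  refine ⟨κ₀ + (4 / θ / 2) * Real.exp (j₀ / 2), ?_⟩
  intro ι x y W hW X B hX hB hS
  have h := mu_ge g1 g2 g3 g4 x y hδ0 hδ1 hθ4 hMB hMX hn hMXn hRa hgen
    (by exact_mod_cast hK0 : 0 < K) hKc hκ₀ hj₀ W.card W rfl hW X B hX hB
  by_contra hcon
  push Not at hcon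
  have hS0 : 0 ≤ Sz X B := Sz_nonneg X B
  have h1 : (1 - δ) * (Real.log X.card + Real.log B.card) -
      (κ₀ + (4 / θ / 2) * Real.exp (j₀ / 2)) ≤
      bd δ' (4 / θ) κ₀ j₀ W.card (Sz X B) := by
    unfold bd
    have h2 : Real.exp (2 / (4 / θ) * Sz X B - (W.card : ℝ) / 2) ≤ 1 := by
      rw [Real.exp_le_one_iff]
      have h3 : 2 / (4 / θ) * Sz X B = θ * (Real.log X.card + Real.log B.card) / 2 := by
        unfold Sz
        field_simp; ring
      rw [h3]
      linarith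
    have h4 : (4 / θ / 2) * Real.exp (j₀ / 2) *
        Real.exp (2 / (4 / θ) * Sz X B - (W.card : ℝ) / 2) ≤
        (4 / θ / 2) * Real.exp (j₀ / 2) * 1 :=
      mul_le_mul_of_nonneg_left h2 (by positivity)
    have h5 : (1 - δ) * Sz X B ≤ (1 - δ') * Sz X B :=
      mul_le_mul_of_nonneg_right (by have := min_le_left δ (1 / 2); linarith) hS0
    have h6 : Sz X B = Real.log X.card + Real.log B.card := rfl
    rw [← h6]
    linarith
  have h7 : mu x y W X B < (1 - δ) * (Real.log X.card + Real.log B.card) -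
      (κ₀ + (4 / θ / 2) * Real.exp (j₀ / 2)) := by
    unfold mu
    rw [div_lt_iff₀ (by positivity)]
    have h8 : ∑ s ∈ W.powerset, Real.log ((dil (dm x y W s) X + B).card : ℝ) <
        ∑ s ∈ W.powerset, ((1 - δ) * (Real.log X.card + Real.log B.card) -
          (κ₀ + (4 / θ / 2) * Real.exp (j₀ / 2))) :=
      Finset.sum_lt_sum_of_nonempty ⟨∅, by simp⟩ fun s hs => hcon s (Finset.mem_powerset.1 hs)
    rw [Finset.sum_const, Finset.card_powerset, nsmul_eq_mul] at h8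
    push_cast at h8
    linarith
  linarith

end Pool.Agent.T2h42.GE
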